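import Pool.Agent.Y245.UC.MainG
import Pool.Agent.Y604.UC.Loc
import Pool.Agent.Y344.SF.Gron
import Pool.Agent.Y458.SF.Kap2
import Pool.Agent.Y987.UC.Start
import Pool.Agent.Y845.UC.Step
import Pool.Agent.Y641.UC.Conn
import Pool.Agent.Y500.UC.Rel
import Pool.Agent.Y508.UC.Res

/-!
# The singularities of the Riemann map of a counterexample to Schiffer's conjecture

Let `Ω = φ(D)`, where `φ` is holomorphic and injective in a disc `|w| < r`, `r > 1`, and `D` is the
open unit disc, let (S) have a nontrivial solution on `Ω` for some `lam > 0`, and suppose that `Ω`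
is not a disc. Continue `φ` analytically in `|w| > 1` in all possible ways. Then every branch blows up
at least like `1 / dist` at each of its singularities, and the singularity is not isolated:
* if a branch `g`, holomorphic in a disc `B` with closure in `|w| > 1`, satisfies
  `dist(w, ∂B) |g(w)| ≤ η` near a boundary point `w1` of `B`, and
  `lam |φ'(1 / conj w1)| η < 3 |w1|²`, then `g` continues analytically to `w1` (this is also true
  when `Ω` is a disc; the singularity of `φ` is then a simple pole, and `3` would have to be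
  replaced by `j²`, `j ≥ 3.83` a zero of `J_1`); the same at `∞`, with half-planes;
* no branch has an isolated singularity (a pole or an essential singularity), neither at a finite
  point nor at `∞`.
In particular `φ` is not meromorphic in the plane: Schiffer's conjecture is true for all domains
whose Riemann map is entire or meromorphic in the plane, or has an isolated singularity on its
circle of convergence.

The proof shows that the loop integrals of `exp (α φ + β S∘φ) dφ`, `α β = -lam / 4`, around the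
reflected singularity of the Schwarz function `S` vanish. Essential singularities and poles of order
at least two are excluded by Laplace's method (at points provided by Wiman-Valiron theory in the
essential case), a simple pole leads to discs by Bourget's hypothesis for `J_1` and `J_m`, which
is proved in `Pool.Agent.Y245.SG.Main` (Siegel's theorem).
-/

set_option autoImplicit false

open MeasureTheory Metric Set Filter Topology ComplexConjugate

namespace Pool.Agent.Results.MP_83fd13_an.BranchSingularities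

/-- The overdetermined problem (S) in the plane `ℂ`: `-Δu = lam u` in `Ω`, `∂u/∂n = 0` on `∂Ω`,
`u = c` on `∂Ω` has a nontrivial weak solution `u` for some real constant `c`; `G` is the weak
gradient of `u`, and both boundary conditions are expressed by testing with functions that need not
vanish on `∂Ω`. -/
def Solvable (Ω : Set ℂ) (lam : ℝ) : Prop :=
  ∃ (c : ℝ) (u : ℂ → ℝ) (G : ℂ → ℂ),
    MemLp u 2 (volume.restrict Ω) ∧ MemLp G 2 (volume.restrict Ω) ∧
    (∀ φ : ℂ → ℝ, ContDiff ℝ 1 φ → HasCompactSupport φ → ∀ v : ℂ,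
      ∫ x in Ω, (u x - c) * (fderiv ℝ φ x v) = - ∫ x in Ω, @inner ℝ ℂ _ (G x) v * φ x) ∧
    (∀ φ : ℂ → ℝ, ContDiff ℝ 1 φ → HasCompactSupport φ →
      ∫ x in Ω, fderiv ℝ φ x (G x) = lam * ∫ x in Ω, u x * φ x) ∧
    ¬ (u =ᵐ[volume.restrict Ω] 0)

/-- The germs obtained from `φ` by analytic continuation along chains of discs in `|w| > 1`:
`Branch φ r z f` means that `f` near `z` is such a continuation of `φ`, which is given in
`|w| < r`. -/
inductive Branch (φ : ℂ → ℂ) (r : ℝ) : ℂ → (ℂ → ℂ) → Prop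
  | base (z : ℂ) (h1 : 1 < ‖z‖) (h2 : ‖z‖ < r) : Branch φ r z φ
  | step (z z' c : ℂ) (ρ : ℝ) (f g : ℂ → ℂ) (h : Branch φ r z f)
      (hB : ∀ w ∈ ball c ρ, 1 < ‖w‖) (hg : DifferentiableOn ℂ g (ball c ρ))
      (hz : z ∈ ball c ρ) (hz' : z' ∈ ball c ρ) (hfg : f =ᶠ[𝓝 z] g) : Branch φ r z' g

/-- Every branch of `φ` blows up at least like `1 / dist` at its singularities, with an explicit
constant: if the closed disc `|w - c| ≤ ρ` lies in `|w| > 1`, `g` is holomorphic in `|w - c| < ρ` and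
a continuation of `φ`, and `(ρ - |w - c|) |g(w)| ≤ η` near a boundary point `w1`, where
`lam |φ'(1 / conj w1)| η < 3 |w1|²`, then `g` extends holomorphically to a neighbourhood of `w1`. -/
def BranchesBlowUp (φ : ℂ → ℂ) (r lam : ℝ) : Prop :=
  ∀ (c : ℂ) (ρ : ℝ) (g : ℂ → ℂ) (w1 : ℂ) (η δ : ℝ), 0 < ρ →
    (∀ w ∈ closedBall c ρ, 1 < ‖w‖) → DifferentiableOn ℂ g (ball c ρ) →
    (∃ z ∈ ball c ρ, Branch φ r z g) → w1 ∈ sphere c ρ → 0 < δ →
    lam * ‖deriv φ (1 / conj w1)‖ * η < 3 * ‖w1‖ ^ 2 →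
    (∀ w ∈ ball c ρ, ‖w - w1‖ < δ → (ρ - ‖w - c‖) * ‖g w‖ ≤ η) →
    ∃ (ε : ℝ) (E : ℂ → ℂ), 0 < ε ∧ DifferentiableOn ℂ E (ball w1 ε) ∧
      ∀ w ∈ ball w1 ε ∩ ball c ρ, E w = g w

/-- The same at `∞`: if `k > 1`, `g` is holomorphic in the half-plane `Re (w conj e) > k`, `|e| = 1`,
and a continuation of `φ`, and `(Re (w conj e) - k) |g(w)| ≤ η |w|²` for all large `|w|`, where
`lam |φ'(0)| η < 3`, then `g` extends holomorphically to a neighbourhood of `∞`. -/
def BranchesBlowUpAtInfinity (φ : ℂ → ℂ) (r lam : ℝ) : Prop :=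
  ∀ (e : ℂ) (k : ℝ) (g : ℂ → ℂ) (η K : ℝ), ‖e‖ = 1 → 1 < k →
    DifferentiableOn ℂ g {w : ℂ | k < (w * conj e).re} →
    (∃ z : ℂ, k < (z * conj e).re ∧ Branch φ r z g) → lam * ‖deriv φ 0‖ * η < 3 →
    (∀ w : ℂ, k < (w * conj e).re → K < ‖w‖ →
      ((w * conj e).re - k) * ‖g w‖ ≤ η * ‖w‖ ^ 2) →
    ∃ (R : ℝ) (E : ℂ → ℂ) (L : ℂ), DifferentiableOn ℂ E {w : ℂ | R < ‖w‖} ∧
      Tendsto E (Bornology.cobounded ℂ) (𝓝 L) ∧
      ∀ w : ℂ, R < ‖w‖ → k < (w * conj e).re → E w = g w

/-- No branch of `φ` has a non-removable isolated singularity at a finite point of `|w| > 1`: if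
`ψ` is holomorphic in `0 < |w - w1| < ε`, the disc `|w - w1| < ε` lies in `|w| > 1`, and near some
point `z` the function `ψ` is a continuation of `φ`, then `ψ` extends holomorphically to `w1`. -/
def NoFiniteIsolatedSingularity (φ : ℂ → ℂ) (r : ℝ) : Prop :=
  ∀ (w1 : ℂ) (ε : ℝ) (ψ : ℂ → ℂ), 0 < ε → (∀ w ∈ ball w1 ε, 1 < ‖w‖) →
    DifferentiableOn ℂ ψ (ball w1 ε \ {w1}) →
    (∃ z ∈ ball w1 ε \ {w1}, Branch φ r z ψ) →
    ∃ E : ℂ → ℂ, DifferentiableOn ℂ E (ball w1 ε) ∧ ∀ w ∈ ball w1 ε, w ≠ w1 → E w = ψ w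

/-- No branch of `φ` has a non-removable isolated singularity at `∞`: if `ψ` is holomorphic in
`|w| > K`, `K ≥ 1`, and near some point `z` it is a continuation of `φ`, then `ψ` has a finite limit
at `∞`. -/
def NoIsolatedSingularityAtInfinity (φ : ℂ → ℂ) (r : ℝ) : Prop :=
  ∀ (K : ℝ) (ψ : ℂ → ℂ), 1 ≤ K → DifferentiableOn ℂ ψ {w : ℂ | K < ‖w‖} →
    (∃ z : ℂ, K < ‖z‖ ∧ Branch φ r z ψ) →
    ∃ L : ℂ, Tendsto ψ (Bornology.cobounded ℂ) (𝓝 L)

theorem branch_iff (φ : ℂ → ℂ) (r : ℝ) (z : ℂ) (f : ℂ → ℂ) (h : Branch φ r z f) :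
    Pool.Agent.Y245.UC.Branch φ r z f := by
  induction h with
  | base z h1 h2 => exact Pool.Agent.Y245.UC.Branch.base z h1 h2
  | step z z' c ρ f g _ hB hg hz hz' hfg ih =>
    exact Pool.Agent.Y245.UC.Branch.step z z' c ρ f g ih hB hg hz hz' hfg

/-- Let `φ` be holomorphic and injective in `|w| < r`, where `r > 1`, and let (S) have a nontrivial
solution on `Ω = φ(D)` for `lam > 0`. Then every branch of the analytic continuation of `φ` in
`|w| > 1` blows up at least like `1 / dist` at each of its singularities, with an explicit constant,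
also at `∞`.
If `Ω` is not a disc, then no branch has an isolated singularity (`∞` included); in particular `φ` is
not meromorphic in the plane. -/
theorem result (φ : ℂ → ℂ) (r : ℝ) (hr : 1 < r) (hφ : DifferentiableOn ℂ φ (ball 0 r))
    (hinj : InjOn φ (ball 0 r)) (lam : ℝ) (hlam : 0 < lam) (hS : Solvable (φ '' ball 0 1) lam) :
    BranchesBlowUp φ r lam ∧ BranchesBlowUpAtInfinity φ r lam ∧
    ((¬ ∃ (p : ℂ) (r0 : ℝ), 0 < r0 ∧ φ '' ball 0 1 = ball p r0) →
      NoFiniteIsolatedSingularity φ r ∧ NoIsolatedSingularityAtInfinity φ r ∧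
      ¬ ∀ z : ℂ, MeromorphicAt φ z) := by
  obtain ⟨c, u, G, hu, hG, h1, h2, hu0⟩ := hS
  have hSol : Pool.Agent.TH298.Sch.Sol (φ '' ball 0 1) lam c u G := ⟨hu, hG, h1, h2⟩
  have hcont : ContinuousOn φ (closedBall 0 1) :=
    (hφ.continuousOn).mono (closedBall_subset_ball hr)
  have hb' : Bornology.IsBounded (φ '' ball 0 1) :=
    ((isCompact_closedBall (0 : ℂ) 1).image_of_continuousOn hcont).isBounded.subset
      (image_mono ball_subset_closedBall)
  have hm' : MeasurableSet (φ '' ball 0 1) :=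
    (isOpen_ball.measurableSet).image_of_continuousOn_injOn
      (hcont.mono ball_subset_closedBall) (hinj.mono (ball_subset_ball hr.le))
  have hc : c ≠ 0 := hSol.c_ne hb' hm' hlam hu0
  refine ⟨?_, ?_, fun hnd => ⟨?_, ?_, ?_⟩⟩
  · rintro c' ρ g w1 η δ hρ hB hg ⟨z, hz, hbr⟩ hw1 hδ hsm hgr
    exact Pool.Agent.Y245.UC.finF Pool.Agent.Y987.UC.ustart Pool.Agent.Y845.UC.ustep
      Pool.Agent.Y641.UC.uconn Pool.Agent.Y500.UC.urel Pool.Agent.Y500.UC.urefl
      Pool.Agent.Y604.UC.udisc Pool.Agent.Y604.UC.uloc Pool.Agent.Y458.SF.kap2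
      Pool.Agent.Y344.SF.Gron.gron φ r lam c u G hr hφ hinj hlam hc hSol z g
      (branch_iff φ r z g hbr) c' ρ hρ hB hg hz w1 hw1 η δ hδ hsm hgr
  · rintro e k g η K he hk hg ⟨z, hz, hbr⟩ hsm hgr
    exact Pool.Agent.Y245.UC.finG Pool.Agent.Y987.UC.ustart Pool.Agent.Y845.UC.ustep
      Pool.Agent.Y641.UC.uconn Pool.Agent.Y500.UC.urel Pool.Agent.Y500.UC.urefl
      Pool.Agent.Y604.UC.uloc Pool.Agent.Y458.SF.kap2 Pool.Agent.Y344.SF.Gron.gron φ r lam c u G
      hr hφ hinj hlam hc hSol z g (branch_iff φ r z g hbr) e k he hk hg hz η K hsm hgr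
  · rintro w1 ε ψ hε hB hψ ⟨z, hz, hbr⟩
    rcases Pool.Agent.Y245.UC.finA Pool.Agent.Y987.UC.ustart Pool.Agent.Y845.UC.ustep
      Pool.Agent.Y641.UC.uconn Pool.Agent.Y500.UC.urel Pool.Agent.Y500.UC.urefl
      Pool.Agent.Y508.UC.ures φ r lam c u G hr hφ hinj hlam hc hSol z ψ (branch_iff φ r z ψ hbr)
      w1 ε hε ψ hB hψ hz (EventuallyEq.refl _ _) with h | h
    · exact absurd h hnd
    · exact h
  · rintro K ψ hK hψ ⟨z, hz, hbr⟩
    rcases Pool.Agent.Y245.UC.finB Pool.Agent.Y987.UC.ustart Pool.Agent.Y845.UC.ustep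
      Pool.Agent.Y641.UC.uconn Pool.Agent.Y500.UC.urel Pool.Agent.Y500.UC.urefl
      Pool.Agent.Y508.UC.ures φ r lam c u G hr hφ hinj hlam hc hSol z ψ (branch_iff φ r z ψ hbr)
      K hK ψ hψ hz (EventuallyEq.refl _ _) with h | h
    · exact absurd h hnd
    · exact h
  · intro h
    exact hnd (Pool.Agent.Y245.SC.main5 Pool.Agent.Y287.ES.mer Pool.Agent.Y953.ES.ent
      Pool.Agent.Y245.SC.t_EF φ r lam c u G hr hφ h hinj hlam hc hSol)

end Pool.Agent.Results.MP_83fd13_an.BranchSingularities
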