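import Pool.Agent.Y251.SF.Fin

/-!
# Schiffer's conjecture: the Riemann map of a Schiffer domain blows up at the rate `1 / dist` at each
of its singularities on the circle of convergence

Let `φ` be holomorphic in `|w| < R`, `R > 1`, injective near the closed unit disc, and let (S) have a
nontrivial solution on `Ω = φ(D)` for the eigenvalue `lam`. If `φ` does not continue analytically
across a point `w₁` with `|w₁| = R`, then
`lam · |φ'(1 / conj w₁)| · limsup_{w → w₁} (R - |w|) |φ(w)| ≥ 3 R²`.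
For a disc the left side equals `j² R²`, where `j ≥ 3.83` is a zero of `J₁`, at the only singularity.
-/

set_option autoImplicit false

open MeasureTheory Metric Set Filter Topology ComplexConjugate

namespace Pool.Agent.Results.MP_83fd13_an.CriticalBlowUp

/-- The overdetermined problem (S) in the plane `ℂ`: `-Δu = lam u` in `Ω`, `∂u/∂n = 0` on `∂Ω`,
`u = c` on `∂Ω` has a nontrivial weak solution `u` for some real constant `c`; `G` is the weak
gradient of `u`, and both boundary conditions are expressed by testing with functions that need not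
vanish on `∂Ω`. -/
def Solvable (Ω : Set ℂ) (lam : ℝ) : Prop :=
  ∃ (c : ℝ) (u : ℂ → ℝ) (G : ℂ → ℂ),
    MemLp u 2 (volume.restrict Ω) ∧ MemLp G 2 (volume.restrict Ω) ∧
    (∀ φ : ℂ → ℝ, ContDiff ℝ 1 φ → HasCompactSupport φ → ∀ v : ℂ,
      ∫ x in Ω, (u x - c) * (fderiv ℝ φ x v) = - ∫ x in Ω, @inner ℝ ℂ _ (G x) v * φ x) ∧
    (∀ φ : ℂ → ℝ, ContDiff ℝ 1 φ → HasCompactSupport φ →
      ∫ x in Ω, fderiv ℝ φ x (G x) = lam * ∫ x in Ω, u x * φ x) ∧
    ¬ (u =ᵐ[volume.restrict Ω] 0)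

/-- `φ`, given in the disc `|w| < R`, continues analytically to a neighbourhood of `w₁` -/
def ContinuesAt (φ : ℂ → ℂ) (R : ℝ) (w₁ : ℂ) : Prop :=
  ∃ (ε : ℝ) (ψ : ℂ → ℂ), 0 < ε ∧ DifferentiableOn ℂ ψ (ball w₁ ε) ∧
    ∀ w ∈ ball w₁ ε, ‖w‖ < R → ψ w = φ w

/-- `φ`, given in the disc `|w| < R`, continues analytically to a larger disc `|w| < R'` -/
def Continues (φ : ℂ → ℂ) (R : ℝ) : Prop :=
  ∃ (R' : ℝ) (ψ : ℂ → ℂ), R < R' ∧ DifferentiableOn ℂ ψ (ball 0 R') ∧ EqOn ψ φ (ball 0 R)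

/-- Let `φ` be holomorphic in `|w| < R` and injective in `|w| < r`, where `1 < r ≤ R`, let
`Ω = φ(D)`, `D` the open unit disc, and suppose that (S) has a nontrivial solution on `Ω` for
`lam > 0`.
(A) If `|w₁| = R`, `(R - |w|) |φ(w)| ≤ η` for all `w` near `w₁` in `|w| < R`, and
`lam |φ'(1 / conj w₁)| η < 3 R²`, then `φ` continues analytically to a neighbourhood of `w₁`.
(B) If this holds at every point `w₁` of the circle `|w₁| = R` (with `η` depending on `w₁`), then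
`φ` continues analytically to a larger disc.
(C) If the Taylor coefficients `aₙ` of `φ` satisfy `|aₙ| Rⁿ ≤ η` for all large `n`, `|φ'| ≤ L` on
`|w| = 1 / R`, and `lam L η < 3 R`, then `φ` continues analytically to a larger disc.
(D) If `aₙ Rⁿ → 0`, then `φ` continues analytically to a larger disc. -/
theorem result (φ : ℂ → ℂ) (r R lam : ℝ) (hr : 1 < r) (hrR : r ≤ R)
    (hφ : DifferentiableOn ℂ φ (ball 0 R)) (hinj : InjOn φ (ball 0 r))
    (hlam : 0 < lam) (hS : Solvable (φ '' ball 0 1) lam) :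
    (∀ w₁ : ℂ, ‖w₁‖ = R → ∀ η : ℝ, (∀ᶠ w in 𝓝[ball 0 R] w₁, (R - ‖w‖) * ‖φ w‖ ≤ η) →
      lam * ‖deriv φ (conj w₁)⁻¹‖ * η < 3 * R ^ 2 → ContinuesAt φ R w₁) ∧
    ((∀ w₁ : ℂ, ‖w₁‖ = R → ∃ η : ℝ, (∀ᶠ w in 𝓝[ball 0 R] w₁, (R - ‖w‖) * ‖φ w‖ ≤ η) ∧
      lam * ‖deriv φ (conj w₁)⁻¹‖ * η < 3 * R ^ 2) → Continues φ R) ∧
    (∀ η L : ℝ, (∀ w : ℂ, ‖w‖ = R⁻¹ → ‖deriv φ w‖ ≤ L) →
      (∀ᶠ n : ℕ in atTop, ‖iteratedDeriv n φ 0 / (n.factorial : ℂ)‖ * R ^ n ≤ η) →
      lam * L * η < 3 * R → Continues φ R) ∧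
    (Tendsto (fun n : ℕ => iteratedDeriv n φ 0 / (n.factorial : ℂ) * (R : ℂ) ^ n) atTop (𝓝 0) →
      Continues φ R) := by
  have hS' : Pool.Agent.Y251.SF.Solvable (φ '' ball 0 1) lam := hS
  have hR : 0 < R := by linarith
  have hC : ∀ η L : ℝ, (∀ w : ℂ, ‖w‖ = R⁻¹ → ‖deriv φ w‖ ≤ L) →
      (∀ᶠ n : ℕ in atTop, ‖iteratedDeriv n φ 0 / (n.factorial : ℂ)‖ * R ^ n ≤ η) →
      lam * L * η < 3 * R → Continues φ R := fun η L hL hη hs =>
    Pool.Agent.Y251.SF.main_coef Pool.Agent.Y564.SF.Lo2.lo2 hr hrR hφ hinj hlam hS' hL hη hs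
  refine ⟨(Pool.Agent.Y251.SF.main hr hrR hφ hinj hlam hS').1,
    (Pool.Agent.Y251.SF.main hr hrR hφ hinj hlam hS').2, hC, fun hT => ?_⟩
  obtain ⟨L, hL⟩ : ∃ L : ℝ, ∀ w ∈ sphere (0 : ℂ) R⁻¹, ‖deriv φ w‖ ≤ L := by
    have hsub : sphere (0 : ℂ) R⁻¹ ⊆ ball 0 R := by
      refine sphere_subset_closedBall.trans (closedBall_subset_ball ?_)
      have : R⁻¹ < 1 := inv_lt_one_of_one_lt₀ (by linarith)
      linarith
    exact (isCompact_sphere (0 : ℂ) R⁻¹).exists_bound_of_continuousOn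
      (((hφ.deriv isOpen_ball).continuousOn).mono hsub)
  set η : ℝ := R / (lam * (|L| + 1)) with hη
  have hη0 : 0 < η := by positivity
  refine hC η |L| (fun w hw => (hL w (mem_sphere_zero_iff_norm.2 hw)).trans (le_abs_self L)) ?_ ?_
  · have h1 := hT.norm
    rw [norm_zero] at h1
    filter_upwards [h1.eventually (gt_mem_nhds hη0)] with n hn
    rw [norm_mul, norm_pow, Complex.norm_real, Real.norm_of_nonneg hR.le] at hn
    exact hn.le
  · rw [hη]
    have e : lam * |L| * (R / (lam * (|L| + 1))) = R * (|L| / (|L| + 1)) := by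
      field_simp
    rw [e]
    have h2 : |L| / (|L| + 1) ≤ 1 := by
      rw [div_le_one (by positivity)]
      linarith
    nlinarith

end Pool.Agent.Results.MP_83fd13_an.CriticalBlowUp
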