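import Pool.Agent.Y362.LR.Bouj
import Pool.Agent.Y971.LR.Win
import Pool.Agent.Y473.LR.Non
import Pool.Agent.Y473.LR.Fin
import Pool.Agent.Y245.SG.Main

/-!
# Schiffer's conjecture near discs, at all bounded frequencies

For every `T > 0` there is `ε > 0` such that every bounded planar domain `Ω` (with connected
complement, equal to the interior of its closure, with a boundary of area `0`) between two concentric
discs of radii `(1 - ε) r` and `(1 + ε) r` that carries a nontrivial solution of (S) for some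
`lam > 0` with `√lam * r ≤ T` is a disc, and then `lam` is the eigenvalue of a radial eigenfunction.

No smallness of derivatives of the boundary, no condition on `lam` besides `√lam * r ≤ T`. The proof
contains a proof of Siegel's theorem that `J_1(x) ≠ 0` for algebraic `x ≠ 0` and of Bourget's
hypothesis for `J_1` and `J_m` (`Pool.Agent.Y245.SG.Main`).
-/

set_option autoImplicit false

open MeasureTheory Metric Set

namespace Pool.Agent.Results.MP_83fd13_an.DiscsIsolated

/-- The overdetermined problem (S) in the plane `ℂ`: `-Δu = lam u` in `Ω`, `∂u/∂n = 0` on `∂Ω`,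
`u = c` on `∂Ω` has a nontrivial weak solution `u` for some real constant `c`; `G` is the weak
gradient of `u`, and both boundary conditions are expressed by testing with functions that need not
vanish on `∂Ω`. -/
def Solvable (Ω : Set ℂ) (lam : ℝ) : Prop :=
  ∃ (c : ℝ) (u : ℂ → ℝ) (G : ℂ → ℂ),
    MemLp u 2 (volume.restrict Ω) ∧ MemLp G 2 (volume.restrict Ω) ∧
    (∀ φ : ℂ → ℝ, ContDiff ℝ 1 φ → HasCompactSupport φ → ∀ v : ℂ,
      ∫ x in Ω, (u x - c) * (fderiv ℝ φ x v) = - ∫ x in Ω, @inner ℝ ℂ _ (G x) v * φ x) ∧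
    (∀ φ : ℂ → ℝ, ContDiff ℝ 1 φ → HasCompactSupport φ →
      ∫ x in Ω, fderiv ℝ φ x (G x) = lam * ∫ x in Ω, u x * φ x) ∧
    ¬ (u =ᵐ[volume.restrict Ω] 0)

/-- Discs are isolated among the domains that carry a nontrivial solution of (S), at all bounded
frequencies: for every `T > 0` there is `ε ∈ (0, 1)` such that every bounded open `Ω` with
`B(q, (1 - ε) r) ⊆ Ω ⊆ closed B(q, (1 + ε) r)`, connected complement, `Ω = int cl Ω` and
`|∂Ω| = 0` on which (S) has a nontrivial solution for some `lam > 0` with `√lam * r ≤ T` is a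
disc. -/
theorem result (T : ℝ) (hT : 0 < T) : ∃ ε : ℝ, 0 < ε ∧ ε < 1 ∧
    ∀ (Ω : Set ℂ) (lam r : ℝ) (q : ℂ), IsOpen Ω → Bornology.IsBounded Ω → IsConnected Ωᶜ →
      interior (closure Ω) = Ω → volume (frontier Ω) = 0 → 0 < lam → 0 < r → √lam * r ≤ T →
      ball q ((1 - ε) * r) ⊆ Ω → Ω ⊆ closedBall q ((1 + ε) * r) → Solvable Ω lam →
      ∃ (p : ℂ) (r' : ℝ), 0 < r' ∧ Ω = ball p r' := by
  obtain ⟨ε, h0, h1, h⟩ := Pool.Agent.Y473.LR.lrf Pool.Agent.Y971.LR.win Pool.Agent.Y971.LR.small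
    Pool.Agent.Y473.LR.non (Pool.Agent.Y362.LR.bouj Pool.Agent.Y245.SG.bourget) T hT
  refine ⟨ε, h0, h1, ?_⟩
  intro Ω lam r q hΩ hb hc hi hf hlam hr hT' hin hout hS
  obtain ⟨c, u, G, hu, hG, e1, e2, hu0⟩ := hS
  have hne : Ω.Nonempty := (nonempty_ball.2 (mul_pos (by linarith) hr)).mono hin
  obtain ⟨p, r', hr', e, -⟩ := h Ω lam c r q u G hΩ hb hne hc.isPreconnected hi hf hlam hr hT'
    hin hout ⟨hu, hG, e1, e2⟩ hu0
  exact ⟨p, r', hr', e⟩

end Pool.Agent.Results.MP_83fd13_an.DiscsIsolated
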