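import Mathlib
import Pool.Agent.Y278.MK.Fin
import Pool.Agent.Y278.MK.EndW
import Pool.Agent.Z932.MK.Area
import Pool.Agent.Y287.MK.HolC
import Pool.Agent.Y287.MK.Scale
import Pool.Agent.Y287.MK.Ffs
import Pool.Agent.Y405.MK.Crs
import Pool.Agent.Y458.MK.Cmp
import Pool.Agent.Y523.MK.Qcl
import Pool.Agent.Y523.MK.EndG
import Pool.Agent.Y590.MKPS
import Pool.Agent.Y686.MK.Cnt
import Pool.Agent.Y168.MK.Zw

/-!
# Schiffer's conjecture on lines in the space of support functions

A domain with support function `h` is the open convex set of all `x` with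
`x₁ cos θ + x₂ sin θ < h(θ)` for all `θ`; `h + h''` is its radius of curvature.

1. Lines. Let `h`, `k` be `C²` and `2π`-periodic and linearly independent modulo
   `cos`, `sin` (the support functions of points). For all but countably many real `t` for which
   `h + t k` has positive radius of curvature the domain with support function `h + t k` has no
   nontrivial solution of (S), for any eigenvalue.
2. Minkowski pencils. Let `K`, `L` be nonempty compact convex sets with `C²` support functions,
   `L` with positive radius of curvature, `K` not a homothetic copy of `L` and not a point. For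
   all but countably many `t > 0` the interior of `K + t L` has no nontrivial solution of (S).
3. Outer parallel domains. Let `K` be a nonempty compact convex set with `C²` support function
   which is neither a closed disc nor a point. For all but countably many `t > 0` the domain of
   all points at distance less than `t` from `K` has no nontrivial solution of (S).
-/

set_option autoImplicit false

namespace Pool.Agent.Results.MP_83fd13_an.MinkowskiPencils

open Pool.Agent.Y278.MK Set Real

theorem result :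
    (∀ h k : ℝ → ℝ, ContDiff ℝ 2 h → ContDiff ℝ 2 k →
      (∀ x, h (x + 2 * π) = h x) → (∀ x, k (x + 2 * π) = k x) →
      (∀ a b c d : ℝ, (∀ θ, a * h θ + b * k θ = c * cos θ + d * sin θ) → a = 0 ∧ b = 0) →
      {t : ℝ | (∀ θ, 0 < (h θ + t * k θ) + (deriv (deriv h) θ + t * deriv (deriv k) θ)) ∧
        ∃ lam : ℝ, 0 < lam ∧
          Solvable {x : ℂ | ∀ θ : ℝ, x.re * cos θ + x.im * sin θ < h θ + t * k θ}
            lam}.Countable) ∧
    (∀ K L : Set ℂ, IsCompact K → Convex ℝ K → K.Nonempty →
      IsCompact L → Convex ℝ L → L.Nonempty →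
      ContDiff ℝ 2 (supp K) → ContDiff ℝ 2 (supp L) →
      (∀ θ, 0 < supp L θ + deriv (deriv (supp L)) θ) →
      (∀ a : ℝ, 0 ≤ a → ∀ p : ℂ, K ≠ {z | ∃ y ∈ L, z = p + a • y}) →
      {t : ℝ | 0 < t ∧ ∃ lam : ℝ, 0 < lam ∧
        Solvable (interior {z : ℂ | ∃ x ∈ K, ∃ y ∈ L, z = x + t • y}) lam}.Countable) ∧
    (∀ K : Set ℂ, IsCompact K → Convex ℝ K → K.Nonempty → ContDiff ℝ 2 (supp K) →
      (∀ (p : ℂ) (r : ℝ), K ≠ Metric.closedBall p r) →
      {t : ℝ | 0 < t ∧ ∃ lam : ℝ, 0 < lam ∧
        Solvable (Metric.thickening t K) lam}.Countable) := by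
  have hA : S_AREA := Pool.Agent.Z932.MK.area_thm
  have hH : S_HOL := Pool.Agent.Y287.MK.hol_thm
  have hX : S_CRS := Pool.Agent.Y405.MK.crs_thm
  have hCmp : S_CMP := Pool.Agent.Y458.MK.cmp_thm hH hX
  have hS : S_SCALE := Pool.Agent.Y287.MK.scale_thm
  have hF : S_FFS := Pool.Agent.Y287.MK.ffs_thm
  have hQ : S_QCL := Pool.Agent.Y523.MK.qcl_thm hCmp hS hA
  have hP : S_PS := Pool.Agent.Y590.MK.ps_thm
  have hC : S_CNT := Pool.Agent.Y686.MK.cnt_thm
  have hZ : S_ZW := Pool.Agent.Y168.MK.zw_thm
  have hW : S_ENDW := endw_thm hF hZ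
  have hE : S_ENDG := Pool.Agent.Y523.MK.endg_thm hW hZ
  have hM : S_MINK := Pool.Agent.Y220.MK.mink_thm
  have hR : S_RHO := Pool.Agent.Y210.MK.rho_thm
  refine ⟨?_, ?_, ?_⟩
  · intro h k h2 k2 hp kp hind
    refine (lines_thm hA hQ hF hP hC hE ⟨h2, hp⟩ ⟨k2, kp⟩ hind).mono fun t ht => ?_
    obtain ⟨h1, lam, hlam, hs⟩ := ht
    refine ⟨fun θ => ?_, lam, hlam, hs⟩
    have h3 := h1 θ
    unfold rho
    linarith
  · exact mink_lines hA hQ hF hP hC hE hM hR
  · exact par_lines hA hQ hF hP hC hE hM hR

end Pool.Agent.Results.MP_83fd13_an.MinkowskiPencils
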